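import Pool.Agent.Helper77.SUBK.SheetK

/-!
Project SUBK, row PFX: existence of a family of absolute values.
-/

set_option autoImplicit false

namespace Pool.Agent.Helper96.SUBK

open Finset Pool.Agent.Helper70.SUB Pool.Agent.Helper77.SUBK

/-- an embedding into the algebraic closure of the `p`-adic numbers -/
noncomputable def emp (M : Type) [Field M] [NumberField M] (p : ℕ) [Fact p.Prime] :
    M →ₐ[ℚ] PadicAlgCl p := IsAlgClosed.lift

open Classical in
/-- the absolute values -/
noncomputable def nvx (M : Type) [Field M] [NumberField M] (f : M →+* ℂ) : Option ℕ → M → ℝ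
  | none => fun x => ‖f x‖
  | some p => fun x => if h : p.Prime then (have := Fact.mk h; ‖emp M p x‖) else 0

/-- row PFX -/
theorem PFX : ST_PFX := by
  intro M _ _ S hS
  obtain ⟨f⟩ : Nonempty (M →+* ℂ) := inferInstance
  have hsome : ∀ (p : ℕ) (hp : Fact p.Prime) (x : M), nvx M f (some p) x = ‖emp M p x‖ := by
    intro p hp x
    show (if h : p.Prime then _ else _) = _
    rw [dif_pos hp.out]
  have hpr : ∀ v ∈ plc S, ∀ p, v = some p → p.Prime := by
    intro v hv p hp
    rw [hp] at hv
    exact hS p (of_mem_some hv)
  refine ⟨⟨nvx M f, f, fun _ => rfl, ?_, ?_, ?_, ?_, ?_, ?_, ?_⟩⟩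
  · intro v x
    cases v with
    | none => exact norm_nonneg _
    | some p =>
      by_cases h : p.Prime
      · have := Fact.mk h
        rw [hsome p ⟨h⟩]
        exact norm_nonneg _
      · show 0 ≤ (if h : p.Prime then _ else _)
        rw [dif_neg h]
  · intro v
    cases v with
    | none => show ‖f 0‖ = 0; rw [map_zero, norm_zero]
    | some p =>
      by_cases h : p.Prime
      · have := Fact.mk h
        rw [hsome p ⟨h⟩, map_zero, norm_zero]
      · show (if h : p.Prime then _ else _) = _
        rw [dif_neg h]
  · intro v hv x hx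
    cases v with
    | none => exact norm_pos_iff.mpr ((map_ne_zero f).mpr hx)
    | some p =>
      have := Fact.mk (hpr _ hv p rfl)
      rw [hsome p this]
      exact norm_pos_iff.mpr ((map_ne_zero (emp M p)).mpr hx)
  · intro v hv x y
    cases v with
    | none => show ‖f (x * y)‖ = ‖f x‖ * ‖f y‖; rw [map_mul, norm_mul]
    | some p =>
      have := Fact.mk (hpr _ hv p rfl)
      rw [hsome p this, hsome p this, hsome p this, map_mul, norm_mul]
  · intro v hv x y
    cases v with
    | none => show ‖f (x + y)‖ ≤ ‖f x‖ + ‖f y‖; rw [map_add]; exact norm_add_le _ _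
    | some p =>
      have := Fact.mk (hpr _ hv p rfl)
      rw [hsome p this, hsome p this, hsome p this, map_add]
      exact norm_add_le _ _
  · intro p hp x y
    have := Fact.mk (hS p hp)
    rw [hsome p this, hsome p this, hsome p this, map_add]
    exact PadicAlgCl.isNonarchimedean p _ _
  · intro v hv q
    cases v with
    | none =>
      show ‖f (q : M)‖ = av none q
      rw [map_ratCast]
      simp [av]
    | some p =>
      have := Fact.mk (hpr _ hv p rfl)
      rw [hsome p this, map_ratCast]
      have h1 : ((q : ℚ) : PadicAlgCl p) = ((q : ℚ_[p]) : PadicAlgCl p) := by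
        show _ = algebraMap ℚ_[p] (PadicAlgCl p) q
        rw [map_ratCast]
      rw [h1, PadicAlgCl.norm_extends, Padic.eq_padicNorm]
      simp [av]

end Pool.Agent.Helper96.SUBK
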