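import Pool.Agent.Helper77.SUBK.SheetK

/-!
Project SUBK, row RAT: elements fixed by the decomposition group are in the closure of `ℚ`.
-/

set_option autoImplicit false

namespace Pool.Agent.Helper96.SUBK

open Finset Pool.Agent.Helper70.SUB Pool.Agent.Helper77.SUBK

variable {M : Type} [Field M] [NumberField M] {S : Finset ℕ}

/-- the absolute value attached to an automorphism -/
noncomputable def wv (P : PF S M) {v : Option ℕ} (hv : v ∈ plc S) (σ : M ≃ₐ[ℚ] M) :
    AbsoluteValue M ℝ where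
  toFun x := P.nv v (σ x)
  map_mul' x y := by rw [map_mul, P.mul v hv]
  nonneg' x := P.nn _ _
  eq_zero' x := by
    constructor
    · intro h
      exact (map_eq_zero σ).mp (P.eq_zero hv h)
    · intro h
      rw [h, map_zero, P.nz]
  add_le' x y := by
    rw [map_add]
    exact P.add v hv _ _

theorem wv_apply (P : PF S M) {v : Option ℕ} (hv : v ∈ plc S) (σ : M ≃ₐ[ℚ] M) (x : M) :
    wv P hv σ x = P.nv v (σ x) := rfl

/-- weak approximation for the absolute values of the Galois orbit -/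
theorem weakap (P : PF S M) (hS : ∀ p ∈ S, p.Prime) {p : ℕ} (hv : some p ∈ plc S) {η : ℝ}
    (hη : 0 < η) : ∃ e : M, P.nv (some p) (e - 1) < η ∧
      ∀ σ : M ≃ₐ[ℚ] M, wv P hv σ ≠ wv P hv 1 → P.nv (some p) (σ e) < η := by
  classical
  have hp : p.Prime := hS p (of_mem_some hv)
  have hp1 : ∀ σ : M ≃ₐ[ℚ] M, wv P hv σ (p : M) = (p : ℝ)⁻¹ := by
    intro σ
    rw [wv_apply, map_natCast, P.natCast hv]
    have := Fact.mk hp
    simp [av]
  have hp0 : (1 : ℝ) < p := by exact_mod_cast hp.one_lt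
  set ι : Set (AbsoluteValue M ℝ) := Set.range (wv P hv) with hι
  have hfin : Finite ι := Set.finite_range _
  have hnt : ∀ i : ι, (i : AbsoluteValue M ℝ).IsNontrivial := by
    rintro ⟨_, σ, rfl⟩
    refine ⟨(p : M), by exact_mod_cast hp.ne_zero, ?_⟩
    show wv P hv σ (p : M) ≠ 1
    rw [hp1]
    intro h
    rw [inv_eq_one] at h
    linarith
  have hpw : Pairwise fun i j : ι => ¬ (i : AbsoluteValue M ℝ).IsEquiv j := by
    rintro ⟨_, σ, rfl⟩ ⟨_, τ, rfl⟩ hne heq
    apply hne
    obtain ⟨c, hc, hcw⟩ := AbsoluteValue.isEquiv_iff_exists_rpow_eq.mp heq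
    have h1 := congrFun hcw (p : M)
    simp only [] at h1
    rw [hp1, hp1] at h1
    have h2 : c = 1 := by
      have h3 : Real.log ((p : ℝ)⁻¹ ^ c) = Real.log (p : ℝ)⁻¹ := by rw [h1]
      rw [Real.log_rpow (by positivity), Real.log_inv] at h3
      have h4 : 0 < Real.log p := Real.log_pos hp0
      nlinarith
    have h3 : wv P hv σ = wv P hv τ := by
      ext x
      have h4 := congrFun hcw x
      simp only [] at h4
      rw [h2, Real.rpow_one] at h4
      exact h4
    exact Subtype.ext h3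
  have hd := AbsoluteValue.denseRange_algebraMap_pi hnt hpw
  have hd2 := Metric.denseRange_iff.mp hd (fun i => if (i : AbsoluteValue M ℝ) = wv P hv 1 then 1
    else 0) η hη
  obtain ⟨e, he⟩ := hd2
  rw [dist_pi_lt_iff hη] at he
  have he2 : ∀ i : ι, (i : AbsoluteValue M ℝ)
      ((if (i : AbsoluteValue M ℝ) = wv P hv 1 then 1 else 0) - e) < η := by
    intro i
    have h1 := he i
    rw [dist_eq_norm, WithAbs.norm_eq_apply_ofAbs] at h1
    have h2 : (WithAbs.ofAbs ((if (i : AbsoluteValue M ℝ) = wv P hv 1 then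
        (1 : WithAbs (i : AbsoluteValue M ℝ)) else 0) -
        (algebraMap M ((i : ι) → WithAbs (i : AbsoluteValue M ℝ))) e i) : M) =
        (if (i : AbsoluteValue M ℝ) = wv P hv 1 then 1 else 0) - e := by
      split_ifs <;> rfl
    rw [h2] at h1
    exact h1
  refine ⟨e, ?_, fun σ hσ => ?_⟩
  · have h1 := he2 ⟨wv P hv 1, 1, rfl⟩
    simp only [if_true] at h1
    rw [wv_apply] at h1
    rw [P.sub_comm hv]
    exact h1
  · have h1 := he2 ⟨wv P hv σ, σ, rfl⟩
    simp only [if_neg hσ] at h1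
    rw [wv_apply, zero_sub, map_neg, P.neg hv] at h1
    exact h1

/-- row RAT -/
theorem RAT : ST_RAT := by
  intro M _ _ _ S P hS v hv a ha
  cases v with
  | none =>
    have h : P.emb.comp (algebraMap ℚ M) =
        ((starRingEnd ℂ).comp P.emb).comp (algebraMap ℚ M) := Subsingleton.elim _ _
    obtain ⟨σ, hσ⟩ := NumberField.ComplexEmbedding.exists_comp_symm_eq_of_comp_eq (k := ℚ) P.emb
      ((starRingEnd ℂ).comp P.emb) h
    have h1 : ∀ x, P.emb (σ.symm x) = (starRingEnd ℂ) (P.emb x) := fun x => by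
      have := congrArg (fun f : M →+* ℂ => f x) hσ
      simpa using this
    have h2 : σ.symm a = a := ha σ.symm fun x => by
      rw [P.inf, P.inf, h1, RCLike.norm_conj]
    have h3 : (starRingEnd ℂ) (P.emb a) = P.emb a := by rw [← h1, h2]
    have h4 : ((P.emb a).re : ℂ) = P.emb a := Complex.conj_eq_iff_re.mp h3
    intro ε hε
    obtain ⟨q, hq1, hq2⟩ := exists_rat_btwn (show (P.emb a).re - ε < (P.emb a).re + ε by linarith)
    refine ⟨q, ?_⟩
    rw [P.inf, map_sub, map_ratCast, ← h4]
    have h5 : ((P.emb a).re : ℂ) - (q : ℂ) = (((P.emb a).re - q : ℝ) : ℂ) := by push_cast; rfl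
    rw [h5, Complex.norm_real, Real.norm_eq_abs, abs_lt]
    constructor <;> linarith
  | some p =>
    classical
    intro ε hε
    set D : Finset (M ≃ₐ[ℚ] M) := Finset.univ.filter (fun σ => wv P hv σ = wv P hv 1) with hD
    have hD1 : (1 : M ≃ₐ[ℚ] M) ∈ D := by simp [hD]
    have hc0 : ((D.card : ℕ) : M) ≠ 0 := by
      exact_mod_cast (Finset.card_pos.mpr ⟨_, hD1⟩).ne'
    have hc1 : 0 < P.nv (some p) (D.card : M) := P.pos _ hv _ hc0
    set B : ℝ := ∑ σ : M ≃ₐ[ℚ] M, P.nv (some p) (σ a) with hB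
    have hB0 : 0 ≤ B := Finset.sum_nonneg fun _ _ => P.nn _ _
    set η : ℝ := ε * P.nv (some p) (D.card : M) / (B + 1) with hη
    have hη0 : 0 < η := by positivity
    obtain ⟨e, he1, he2⟩ := weakap P hS hv hη0
    refine ⟨Algebra.trace ℚ M (a * e) / D.card, ?_⟩
    have htr : ((Algebra.trace ℚ M (a * e) : ℚ) : M) = ∑ σ : M ≃ₐ[ℚ] M, σ (a * e) := by
      rw [← trace_eq_sum_automorphisms]
      rfl
    have hterm : ∀ σ : M ≃ₐ[ℚ] M, P.nv (some p)
        ((if σ ∈ D then a else 0) - σ (a * e)) ≤ P.nv (some p) (σ a) * η := by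
      intro σ
      by_cases hσ : σ ∈ D
      · rw [if_pos hσ]
        have h1 : wv P hv σ = wv P hv 1 := (Finset.mem_filter.mp hσ).2
        have h2 : σ a = a := ha σ fun x => by
          have := congrArg (fun w : AbsoluteValue M ℝ => w x) h1
          exact this
        have h3 : a - σ (a * e) = σ a * σ (1 - e) := by
          rw [map_mul, map_sub, map_one, h2]
          ring
        rw [h3, P.mul _ hv]
        refine mul_le_mul_of_nonneg_left ?_ (P.nn _ _)
        have h4 := congrArg (fun w : AbsoluteValue M ℝ => w (1 - e)) h1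
        have h5 : P.nv (some p) (σ (1 - e)) = P.nv (some p) (1 - e) := h4
        rw [h5, P.sub_comm hv]
        exact he1.le
      · rw [if_neg hσ, zero_sub, P.neg hv, map_mul, P.mul _ hv]
        refine mul_le_mul_of_nonneg_left ?_ (P.nn _ _)
        exact (he2 σ fun h => hσ (Finset.mem_filter.mpr ⟨Finset.mem_univ _, h⟩)).le
    have hsum : P.nv (some p) ((D.card : M) * a - (Algebra.trace ℚ M (a * e) : ℚ)) ≤ B * η := by
      have h1 : (D.card : M) * a = ∑ σ : M ≃ₐ[ℚ] M, (if σ ∈ D then a else 0) := by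
        rw [Finset.sum_ite_mem, Finset.univ_inter, Finset.sum_const, nsmul_eq_mul]
      rw [h1, htr, ← Finset.sum_sub_distrib]
      refine (P.sum_le hv _ _).trans ?_
      rw [hB, Finset.sum_mul]
      exact Finset.sum_le_sum fun σ _ => hterm σ
    have hq : a - ((Algebra.trace ℚ M (a * e) / D.card : ℚ) : M) =
        ((D.card : M) * a - (Algebra.trace ℚ M (a * e) : ℚ)) / (D.card : M) := by
      push_cast
      field_simp
    rw [hq, P.div hv, div_lt_iff₀ hc1]
    refine hsum.trans_lt ?_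
    rw [hη, ← mul_div_assoc, div_lt_iff₀ (by positivity)]
    have : 0 < ε * P.nv (some p) (D.card : M) := by positivity
    nlinarith

end Pool.Agent.Helper96.SUBK
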